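import Pool.Agent.Q111.KU.Stm

namespace Pool.Agent.Q252.KU

open Pool.Agent.Q111.KU

theorem kk_neg (z : ℝ) : kk (-z) = -kk z := by
  unfold kk; rw [Real.cos_neg, Real.sin_neg]; ring

theorem kk_deriv (z : ℝ) : HasDerivAt kk (-(z * Real.sin z)) z := by
  have h1 : HasDerivAt (fun z : ℝ => z * Real.cos z - Real.sin z)
      (1 * Real.cos z + z * (-Real.sin z) - Real.cos z) z :=
    ((hasDerivAt_id z).mul (Real.hasDerivAt_cos z)).sub (Real.hasDerivAt_sin z)
  have h2 : (1 * Real.cos z + z * (-Real.sin z) - Real.cos z) = -(z * Real.sin z) := by ring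
  rw [h2] at h1
  exact h1

theorem sin_abs_le (z : ℝ) (hz : 0 ≤ z) : |Real.sin z| ≤ z := by
  have := Real.abs_sin_le_abs (x := z)
  rwa [abs_of_nonneg hz] at this

theorem kk_bd_nonneg (z : ℝ) (hz : 0 ≤ z) : |kk z| ≤ z ^ 3 / 3 := by
  have hm1 : MonotoneOn (fun z : ℝ => z ^ 3 / 3 + kk z) (Set.Ici 0) := by
    apply monotoneOn_of_hasDerivWithinAt_nonneg (f' := fun z => z ^ 2 + -(z * Real.sin z)) (convex_Ici 0)
    · apply ContinuousOn.add
      · fun_prop
      · unfold kk; fun_prop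
    · intro x hx
      have : HasDerivAt (fun z : ℝ => z ^ 3 / 3 + kk z) (x ^ 2 + -(x * Real.sin x)) x := by
        have h1 : HasDerivAt (fun z : ℝ => z ^ 3 / 3) (x ^ 2) x := by
          have h := (hasDerivAt_pow 3 x).div_const 3
          have e : ((3 : ℕ) : ℝ) * x ^ (3 - 1) / 3 = x ^ 2 := by norm_num
          rw [e] at h
          exact h
        exact h1.add (kk_deriv x)
      exact this.hasDerivWithinAt
    · intro x hx
      rw [interior_Ici] at hx
      have hx0 : 0 < x := hx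
      have h1 := sin_abs_le x hx0.le
      have h2 := (abs_le.mp h1).2
      nlinarith
  have hm2 : MonotoneOn (fun z : ℝ => z ^ 3 / 3 - kk z) (Set.Ici 0) := by
    apply monotoneOn_of_hasDerivWithinAt_nonneg (f' := fun z => z ^ 2 - -(z * Real.sin z)) (convex_Ici 0)
    · apply ContinuousOn.sub
      · fun_prop
      · unfold kk; fun_prop
    · intro x hx
      have : HasDerivAt (fun z : ℝ => z ^ 3 / 3 - kk z) (x ^ 2 - -(x * Real.sin x)) x := by
        have h1 : HasDerivAt (fun z : ℝ => z ^ 3 / 3) (x ^ 2) x := by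
          have h := (hasDerivAt_pow 3 x).div_const 3
          have e : ((3 : ℕ) : ℝ) * x ^ (3 - 1) / 3 = x ^ 2 := by norm_num
          rw [e] at h
          exact h
        exact h1.sub (kk_deriv x)
      exact this.hasDerivWithinAt
    · intro x hx
      rw [interior_Ici] at hx
      have hx0 : 0 < x := hx
      have h1 := sin_abs_le x hx0.le
      have h2 := (abs_le.mp h1).1
      nlinarith
  have e1 := hm1 (Set.mem_Ici.mpr le_rfl) (Set.mem_Ici.mpr hz) hz
  have e2 := hm2 (Set.mem_Ici.mpr le_rfl) (Set.mem_Ici.mpr hz) hz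
  have k0 : kk 0 = 0 := by unfold kk; simp
  simp only [k0] at e1 e2
  norm_num at e1 e2
  rw [abs_le]
  constructor <;> linarith

theorem kk_bd (z : ℝ) : |kk z| ≤ |z| ^ 3 / 3 := by
  rcases le_total 0 z with h | h
  · rw [abs_of_nonneg h]; exact kk_bd_nonneg z h
  · have := kk_bd_nonneg (-z) (by linarith)
    rw [kk_neg, abs_neg] at this
    rw [abs_of_nonpos h]; exact this

theorem kk_sub (x y : ℝ) : kk (y - x) = kk y - kk x + (Real.cos x - 1) * kk y -
    (Real.cos y - 1) * kk x + (y - x) * (Real.sin x * Real.sin y) := by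
  unfold kk
  rw [Real.cos_sub, Real.sin_sub]; ring

theorem cos_sub_one_abs (t : ℝ) : |Real.cos t - 1| ≤ t ^ 2 / 2 := by
  rw [abs_le]
  have h1 := Real.one_sub_sq_div_two_le_cos (x := t)
  have h2 := Real.cos_le_one t
  constructor
  · linarith
  · nlinarith [sq_nonneg t]

/-- `sin z ^ 2` from below -/
theorem sin_sq_ge (z : ℝ) (hz : z ^ 2 ≤ 6) : z ^ 2 - z ^ 4 / 3 ≤ Real.sin z ^ 2 := by
  have key : ∀ z : ℝ, 0 ≤ z → z ^ 2 ≤ 6 → z ^ 2 - z ^ 4 / 3 ≤ Real.sin z ^ 2 := by
    intro z h0 h6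
    have h1 := Real.sin_ge_sub_cube h0
    have h2 : 0 ≤ z - z ^ 3 / 6 := by
      have : z - z ^ 3 / 6 = z * (6 - z ^ 2) / 6 := by ring
      rw [this]
      exact div_nonneg (mul_nonneg h0 (by linarith)) (by norm_num)
    have h3 : (z - z ^ 3 / 6) ^ 2 ≤ Real.sin z ^ 2 := pow_le_pow_left₀ h2 h1 2
    have h4 : (z - z ^ 3 / 6) ^ 2 = z ^ 2 - z ^ 4 / 3 + (z ^ 3) ^ 2 / 36 := by ring
    nlinarith [sq_nonneg (z ^ 3)]
  rcases le_total 0 z with h | h
  · exact key z h hz
  · have := key (-z) (by linarith) (by nlinarith)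
    rw [Real.sin_neg] at this
    nlinarith [this]

theorem mul_sin_ge (z : ℝ) : z ^ 2 - z ^ 4 / 6 ≤ z * Real.sin z := by
  rcases le_total 0 z with h | h
  · have h1 := Real.sin_ge_sub_cube h
    have : z * (z - z ^ 3 / 6) ≤ z * Real.sin z := mul_le_mul_of_nonneg_left h1 h
    nlinarith [this]
  · have h0 : 0 ≤ -z := by linarith
    have h1 := Real.sin_ge_sub_cube h0
    have : (-z) * ((-z) - (-z) ^ 3 / 6) ≤ (-z) * Real.sin (-z) := mul_le_mul_of_nonneg_left h1 h0
    rw [Real.sin_neg] at this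
    nlinarith [this]

end Pool.Agent.Q252.KU
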