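import Pool.Agent.Q111.KU.Stm

namespace Pool.Agent.Q252.KU

open Pool.Agent.Q111.KU Finset Filter Topology

theorem line_min {V : Type} [Fintype V] (A : V → V → ℝ) (θ v : V → ℝ)
    (h : IsLocalMin (energy A) θ) : IsLocalMin (fun t : ℝ => energy A (θ + t • v)) 0 := by
  have hc : ContinuousAt (fun t : ℝ => θ + t • v) 0 := by fun_prop
  have h0 : (fun t : ℝ => θ + t • v) 0 = θ := by simp
  have : Tendsto (fun t : ℝ => θ + t • v) (𝓝 0) (𝓝 θ) := by
    have := hc.tendsto
    rwa [zero_smul, add_zero] at this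
  have h2 := this.eventually h
  unfold IsLocalMin IsMinFilter
  filter_upwards [h2] with t ht
  simpa using ht

theorem en_deriv {V : Type} [Fintype V] (A : V → V → ℝ) (θ v : V → ℝ) :
    HasDerivAt (fun t : ℝ => energy A (θ + t • v))
      ((1 / 2) * ∑ i, ∑ j, A i j * (Real.sin (θ i - θ j) * (v i - v j))) 0 := by
  unfold energy
  apply HasDerivAt.const_mul
  apply HasDerivAt.fun_sum
  intro i _
  apply HasDerivAt.fun_sum
  intro j _
  apply HasDerivAt.const_mul
  have h1 : HasDerivAt (fun t : ℝ => (θ + t • v) i - (θ + t • v) j) (v i - v j) 0 := by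
    have e : (fun t : ℝ => (θ + t • v) i - (θ + t • v) j) =
        fun t : ℝ => (θ i - θ j) + t * (v i - v j) := by
      funext t
      simp only [Pi.add_apply, Pi.smul_apply, smul_eq_mul]
      ring
    rw [e]
    have := ((hasDerivAt_id (0 : ℝ)).mul_const (v i - v j)).const_add (θ i - θ j)
    simpa using this
  have h2 := h1.cos.const_sub 1
  have e2 : (θ + (0 : ℝ) • v) i - (θ + (0 : ℝ) • v) j = θ i - θ j := by simp
  rw [e2] at h2
  have e3 : -(-Real.sin (θ i - θ j) * (v i - v j)) = Real.sin (θ i - θ j) * (v i - v j) := by ring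
  rw [e3] at h2
  exact h2

theorem second {V : Type} [Fintype V] (A : V → V → ℝ) (θ v : V → ℝ) (t : ℝ) :
    energy A (θ + t • v) + energy A (θ + (-t) • v) - 2 * energy A θ =
      ∑ i, ∑ j, A i j * Real.cos (θ i - θ j) * (1 - Real.cos (t * (v i - v j))) := by
  unfold energy
  rw [← mul_add, ← sub_eq_zero]
  have e : ∀ i j, A i j * (1 - Real.cos ((θ + t • v) i - (θ + t • v) j)) +
      A i j * (1 - Real.cos ((θ + (-t) • v) i - (θ + (-t) • v) j)) =
      2 * (A i j * Real.cos (θ i - θ j) * (1 - Real.cos (t * (v i - v j)))) +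
        2 * (A i j * (1 - Real.cos (θ i - θ j))) := by
    intro i j
    have e1 : (θ + t • v) i - (θ + t • v) j = (θ i - θ j) + t * (v i - v j) := by
      simp only [Pi.add_apply, Pi.smul_apply, smul_eq_mul]; ring
    have e2 : (θ + (-t) • v) i - (θ + (-t) • v) j = (θ i - θ j) - t * (v i - v j) := by
      simp only [Pi.add_apply, Pi.smul_apply, smul_eq_mul]; ring
    rw [e1, e2]
    generalize θ i - θ j = d
    generalize t * (v i - v j) = w
    rw [Real.cos_add, Real.cos_sub]
    ring
  rw [← Finset.sum_add_distrib]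
  simp_rw [← Finset.sum_add_distrib, e, Finset.sum_add_distrib, ← Finset.mul_sum]
  ring

theorem slope_lim (w : ℝ) : Tendsto (fun t : ℝ => (1 - Real.cos (t * w)) / t ^ 2) (𝓝[≠] 0)
    (𝓝 (w ^ 2 / 2)) := by
  have h1 : HasDerivAt (fun t : ℝ => Real.sin (t * (w / 2))) (w / 2) 0 := by
    have h := ((hasDerivAt_id (0 : ℝ)).mul_const (w / 2)).sin
    simpa using h
  have h2 := hasDerivAt_iff_tendsto_slope.mp h1
  have h3 := (h2.pow 2).const_mul 2
  have e : 2 * (w / 2) ^ 2 = w ^ 2 / 2 := by ring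
  rw [e] at h3
  refine h3.congr' ?_
  filter_upwards [self_mem_nhdsWithin] with t ht
  have ht0 : t ≠ 0 := ht
  rw [slope_def_field]
  simp only [zero_mul, Real.sin_zero, sub_zero]
  rw [div_pow, Real.sin_sq_eq_half_sub]
  have : 2 * (t * (w / 2)) = t * w := by ring
  rw [this]
  field_simp

theorem t_LM : S_LM := by
  intro V _ A θ hs hm
  constructor
  · intro i
    classical
    have h1 := (line_min A θ (Pi.single i 1) hm).hasDerivAt_eq_zero (en_deriv A θ (Pi.single i 1))
    have h2 : ∑ k, ∑ j, A k j * (Real.sin (θ k - θ j) *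
        ((Pi.single i 1 : V → ℝ) k - (Pi.single i 1 : V → ℝ) j)) =
        2 * ∑ j, A i j * Real.sin (θ i - θ j) := by
      have e1 : ∀ k j, A k j * (Real.sin (θ k - θ j) *
          ((Pi.single i 1 : V → ℝ) k - (Pi.single i 1 : V → ℝ) j)) =
          (Pi.single i 1 : V → ℝ) k * (A k j * Real.sin (θ k - θ j)) -
          (Pi.single i 1 : V → ℝ) j * (A k j * Real.sin (θ k - θ j)) := by
        intro k j; ring
      simp_rw [e1, Finset.sum_sub_distrib, ← Finset.mul_sum]
      rw [Finset.sum_comm (f := fun k j => (Pi.single i 1 : V → ℝ) j * (A k j * Real.sin (θ k - θ j)))]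
      simp_rw [← Finset.mul_sum]
      simp only [Pi.single_apply, ite_mul, one_mul, zero_mul, Finset.sum_ite_eq', Finset.mem_univ, if_true]
      have e2 : ∑ k, A k i * Real.sin (θ k - θ i) = -∑ j, A i j * Real.sin (θ i - θ j) := by
        rw [← Finset.sum_neg_distrib]
        apply Finset.sum_congr rfl
        intro k _
        rw [hs k i, ← neg_sub (θ i) (θ k), Real.sin_neg]; ring
      rw [e2]; ring
    rw [h2] at h1
    have h3 : ∑ j, A i j * Real.sin (θ i - θ j) = 0 := by linarith
    have h4 : ∑ j, A i j * Real.sin (θ j - θ i) = -∑ j, A i j * Real.sin (θ i - θ j) := by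
      rw [← Finset.sum_neg_distrib]
      apply Finset.sum_congr rfl
      intro k _
      rw [← neg_sub (θ i) (θ k), Real.sin_neg]; ring
    rw [h4, h3, neg_zero]
  · intro v
    have hmin := line_min A θ v hm
    have hmin2 : ∀ᶠ t in 𝓝 (0 : ℝ), energy A (θ + (0 : ℝ) • v) ≤ energy A (θ + t • v) := hmin
    have hneg : Tendsto (fun t : ℝ => -t) (𝓝 0) (𝓝 0) := by
      have := (continuous_neg (G := ℝ)).tendsto 0
      simpa using this
    have hmin3 := hneg.eventually hmin2
    have hev : ∀ᶠ t in 𝓝[≠] (0 : ℝ), 0 ≤ ∑ i, ∑ j, A i j * Real.cos (θ i - θ j) *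
        ((1 - Real.cos (t * (v i - v j))) / t ^ 2) := by
      filter_upwards [nhdsWithin_le_nhds hmin2, nhdsWithin_le_nhds hmin3, self_mem_nhdsWithin] with t h1 h2 h3
      have ht0 : t ≠ 0 := h3
      have e := second A θ v t
      rw [zero_smul, add_zero] at h1 h2
      have h4 : 0 ≤ ∑ i, ∑ j, A i j * Real.cos (θ i - θ j) * (1 - Real.cos (t * (v i - v j))) := by
        rw [← e]; linarith
      have e2 : ∑ i, ∑ j, A i j * Real.cos (θ i - θ j) * ((1 - Real.cos (t * (v i - v j))) / t ^ 2) =
          (∑ i, ∑ j, A i j * Real.cos (θ i - θ j) * (1 - Real.cos (t * (v i - v j)))) / t ^ 2 := by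
        simp_rw [Finset.sum_div, mul_div_assoc]
      rw [e2]
      exact div_nonneg h4 (sq_nonneg t)
    have hlim : Tendsto (fun t : ℝ => ∑ i, ∑ j, A i j * Real.cos (θ i - θ j) *
        ((1 - Real.cos (t * (v i - v j))) / t ^ 2)) (𝓝[≠] 0)
        (𝓝 (∑ i, ∑ j, A i j * Real.cos (θ i - θ j) * ((v i - v j) ^ 2 / 2))) := by
      apply tendsto_finsetSum
      intro i _
      apply tendsto_finsetSum
      intro j _
      exact (slope_lim (v i - v j)).const_mul _
    have h5 := ge_of_tendsto hlim hev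
    have e3 : ∑ i, ∑ j, A i j * Real.cos (θ i - θ j) * (v i - v j) ^ 2 =
        2 * ∑ i, ∑ j, A i j * Real.cos (θ i - θ j) * ((v i - v j) ^ 2 / 2) := by
      simp_rw [Finset.mul_sum]
      apply Finset.sum_congr rfl; intro i _
      apply Finset.sum_congr rfl; intro j _
      ring
    rw [e3]
    linarith

end Pool.Agent.Q252.KU
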