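import Pool.Agent.Q252.KU.Base

namespace Pool.Agent.Q252.KU

open Pool.Agent.Q111.KU

theorem t_P1 : S_P1 := by
  intro x y hx hy
  set p := |x| with hp
  set q := |y| with hq
  have hp0 : 0 ≤ p := abs_nonneg x
  have hq0 : 0 ≤ q := abs_nonneg y
  have hzpq : |y - x| ≤ p + q := by
    have := abs_sub y x
    linarith
  -- part b
  have hb : kk (y - x) ≤ kk y - kk x + 2 * (p * q * (p + q)) := by
    rw [kk_sub]
    have h1 : |(Real.cos x - 1) * kk y| ≤ (p ^ 2 / 2) * (q ^ 3 / 3) := by
      rw [abs_mul]
      have e1 := cos_sub_one_abs x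
      rw [← sq_abs x] at e1
      exact mul_le_mul e1 (kk_bd y) (abs_nonneg _) (by positivity)
    have h2 : |(Real.cos y - 1) * kk x| ≤ (q ^ 2 / 2) * (p ^ 3 / 3) := by
      rw [abs_mul]
      have e1 := cos_sub_one_abs y
      rw [← sq_abs y] at e1
      exact mul_le_mul e1 (kk_bd x) (abs_nonneg _) (by positivity)
    have h3 : |(y - x) * (Real.sin x * Real.sin y)| ≤ (p + q) * (p * q) := by
      rw [abs_mul, abs_mul]
      exact mul_le_mul hzpq (mul_le_mul Real.abs_sin_le_abs Real.abs_sin_le_abs (abs_nonneg _) hp0)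
        (by positivity) (by positivity)
    have a1 := (abs_le.mp h1).2
    have a2 := (abs_le.mp h2).1
    have a3 := (abs_le.mp h3).2
    have hpq : p * q ≤ 1 := by nlinarith
    have : (p ^ 2 / 2) * (q ^ 3 / 3) + (q ^ 2 / 2) * (p ^ 3 / 3) = (p * q) * (p * q * (p + q)) / 6 := by ring
    have h4 : (p * q) * (p * q * (p + q)) ≤ 1 * (p * q * (p + q)) :=
      mul_le_mul_of_nonneg_right hpq (by positivity)
    have h5 : 0 ≤ p * q * (p + q) := by positivity
    nlinarith
  have ha : -Real.sin (y - x) ^ 2 ≤ -(77 / 100) * (y - x) ^ 2 + 3500 * (x ^ 2 * y ^ 2) := by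
    have hx2 : x ^ 2 = p ^ 2 := (sq_abs x).symm
    have hy2 : y ^ 2 = q ^ 2 := (sq_abs y).symm
    rcases le_total ((y - x) ^ 2) (69 / 100) with h | h
    · have h1 := sin_sq_ge (y - x) (by linarith)
      have h2 : (y - x) ^ 4 = (y - x) ^ 2 * (y - x) ^ 2 := by ring
      have h3 : (y - x) ^ 2 * (y - x) ^ 2 ≤ (69 / 100) * (y - x) ^ 2 :=
        mul_le_mul_of_nonneg_right h (sq_nonneg _)
      have h4 : 0 ≤ x ^ 2 * y ^ 2 := by positivity
      nlinarith
    · have hz : (83 : ℝ) / 100 ≤ |y - x| := by
        rw [← Real.sqrt_sq_eq_abs]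
        apply Real.le_sqrt_of_sq_le
        nlinarith
      have hxy : x * y < 0 := by
        by_contra hcon
        push Not at hcon
        have : |y - x| ≤ 4 / 5 := by
          rw [abs_le]
          rcases le_total 0 x with h1 | h1
          · rcases le_total 0 y with h2 | h2
            · rw [abs_of_nonneg h1] at hp
              rw [abs_of_nonneg h2] at hq
              constructor <;> linarith
            · rw [abs_of_nonneg h1] at hp
              rw [abs_of_nonpos h2] at hq
              have h3 : x * y ≤ 0 := mul_nonpos_of_nonneg_of_nonpos h1 h2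
              have h4 : x * y = 0 := le_antisymm h3 hcon
              rcases mul_eq_zero.mp h4 with h5 | h5 <;> constructor <;> linarith
          · rcases le_total 0 y with h2 | h2
            · rw [abs_of_nonpos h1] at hp
              rw [abs_of_nonneg h2] at hq
              have h3 : x * y ≤ 0 := mul_nonpos_of_nonpos_of_nonneg h1 h2
              have h4 : x * y = 0 := le_antisymm h3 hcon
              rcases mul_eq_zero.mp h4 with h5 | h5 <;> constructor <;> linarith
            · rw [abs_of_nonpos h1] at hp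
              rw [abs_of_nonpos h2] at hq
              constructor <;> linarith
        linarith
      have hpq : (24 : ℝ) / 1000 ≤ p * q := by nlinarith
      have h5 : (24 / 1000 : ℝ) ^ 2 ≤ (p * q) ^ 2 := pow_le_pow_left₀ (by norm_num) hpq 2
      have h6 : (y - x) ^ 2 ≤ (8 / 5) ^ 2 := by
        rw [← sq_abs (y - x)]
        exact pow_le_pow_left₀ (abs_nonneg _) (by linarith) 2
      have h7 := sq_nonneg (Real.sin (y - x))
      rw [hx2, hy2]
      have h8 : p ^ 2 * q ^ 2 = (p * q) ^ 2 := by ring
      rw [h8]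
      nlinarith
  linarith

end Pool.Agent.Q252.KU
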