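import Pool.Agent.Q252.KU.Base

namespace Pool.Agent.Q252.KU

open Pool.Agent.Q111.KU

theorem two_a (p q : ℝ) (hp0 : 0 ≤ p) (hq0 : 0 ≤ q) (hp : p ≤ 4 / 5) (hq : q ≤ 4 / 5) :
    (p + q) ^ 2 + (p + q) ^ 3 / 3 ≤ 12 / 5 * (p ^ 2 + q ^ 2) + 10 * (p ^ 2 * q ^ 2) := by
  obtain ⟨s, hs⟩ : ∃ s, s = p + q := ⟨_, rfl⟩
  obtain ⟨t, ht⟩ : ∃ t, t = p * q := ⟨_, rfl⟩
  have e1 : p ^ 2 + q ^ 2 = s ^ 2 - 2 * t := by rw [hs, ht]; ring
  have e2 : p ^ 2 * q ^ 2 = t ^ 2 := by rw [ht]; ring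
  have h4 : t ≤ s ^ 2 / 4 := by rw [hs, ht]; nlinarith [sq_nonneg (p - q)]
  have t0 : 0 ≤ t := by rw [ht]; positivity
  have s0 : 0 ≤ s := by rw [hs]; positivity
  have s1 : s ≤ 8 / 5 := by rw [hs]; linarith
  rw [e1, e2, ← hs]
  have goal : 0 ≤ 14 / 10 * s ^ 2 - 48 / 10 * t + 10 * t ^ 2 - s ^ 3 / 3 := by
    rcases le_total s (9 / 10) with h | h
    · -- decreasing in t
      obtain ⟨u, hu⟩ : ∃ u, u = s ^ 2 / 4 - t := ⟨_, rfl⟩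
      have hu0 : 0 ≤ u := by rw [hu]; linarith
      have ht' : t = s ^ 2 / 4 - u := by rw [hu]; ring
      have hs2 : s ^ 2 ≤ 81 / 100 := by nlinarith
      have k1 : 0 ≤ 2 / 10 * s ^ 2 - s ^ 3 / 3 + 5 / 8 * s ^ 4 := by
        have : 2 / 10 * s ^ 2 - s ^ 3 / 3 + 5 / 8 * s ^ 4 =
          s ^ 2 * (5 / 8 * (s - 4 / 15) ^ 2 + (2 / 10 - 5 / 8 * (4 / 15) ^ 2)) := by ring
        rw [this]
        apply mul_nonneg (sq_nonneg s)
        nlinarith [sq_nonneg (s - 4 / 15)]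
      have k2 : 14 / 10 * s ^ 2 - 48 / 10 * t + 10 * t ^ 2 - s ^ 3 / 3 =
          (2 / 10 * s ^ 2 - s ^ 3 / 3 + 5 / 8 * s ^ 4) + u * (48 / 10 - 5 * s ^ 2) + 10 * u ^ 2 := by
        rw [ht']; ring
      rw [k2]
      have k3 : 0 ≤ u * (48 / 10 - 5 * s ^ 2) + 10 * u ^ 2 := by
        have h5 : 5 * s ^ 2 ≤ 48 / 10 := by linarith
        have := mul_nonneg hu0 (sub_nonneg.mpr h5)
        nlinarith [sq_nonneg u]
      linarith
    · have k1 : 0 ≤ 14 / 10 * s ^ 2 - s ^ 3 / 3 - 576 / 1000 := by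
        nlinarith [mul_nonneg (sub_nonneg.mpr h) (sub_nonneg.mpr s1), mul_nonneg (mul_nonneg (sub_nonneg.mpr h) (sub_nonneg.mpr s1)) s0]
      nlinarith [sq_nonneg (t - 24 / 100)]
  linarith

theorem cos_part (z : ℝ) (hz : z ^ 2 ≤ 256 / 100) :
    2 - z ^ 2 / 2 ≤ Real.cos z + Real.cos z ^ 2 + z * Real.sin z := by
  have h1 := Real.one_sub_sq_div_two_le_cos (x := z)
  have h2 := mul_sin_ge z
  have e4 : z ^ 4 = z ^ 2 * z ^ 2 := by ring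
  rcases le_total (z ^ 2) 2 with h | h
  · have hm : 0 ≤ 1 - z ^ 2 / 2 := by linarith
    have h3 : (1 - z ^ 2 / 2) ^ 2 ≤ Real.cos z ^ 2 := pow_le_pow_left₀ hm h1 2
    nlinarith [sq_nonneg (z ^ 2)]
  · have h3 := sq_nonneg (Real.cos z)
    have h4 : 0 ≤ (z ^ 2 - 2) * (256 / 100 - z ^ 2) := mul_nonneg (by linarith) (by linarith)
    nlinarith

theorem t_P2 : S_P2 := by
  intro x y hx hy
  set p := |x| with hp
  set q := |y| with hq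
  have hp0 : 0 ≤ p := abs_nonneg x
  have hq0 : 0 ≤ q := abs_nonneg y
  have hx2 : x ^ 2 = p ^ 2 := (sq_abs x).symm
  have hy2 : y ^ 2 = q ^ 2 := (sq_abs y).symm
  have hzpq : |y - x| ≤ p + q := by
    have := abs_sub y x
    linarith
  refine ⟨?_, ?_, ?_⟩
  · have h1 := (abs_le.mp (kk_bd (y - x))).1
    have h2 : Real.sin (y - x) ^ 2 ≤ |y - x| ^ 2 := by
      rw [← sq_abs (Real.sin (y - x))]
      exact pow_le_pow_left₀ (abs_nonneg _) Real.abs_sin_le_abs 2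
    have h3 : |y - x| ^ 2 ≤ (p + q) ^ 2 := pow_le_pow_left₀ (abs_nonneg _) hzpq 2
    have h4 : |y - x| ^ 3 ≤ (p + q) ^ 3 := pow_le_pow_left₀ (abs_nonneg _) hzpq 3
    have h5 := two_a p q hp0 hq0 hx hy
    rw [hx2, hy2]
    linarith
  · have h6 : (y - x) ^ 2 ≤ (p + q) ^ 2 := by
      rw [← sq_abs (y - x)]
      exact pow_le_pow_left₀ (abs_nonneg _) hzpq 2
    have h7 : (p + q) ^ 2 ≤ (8 / 5) ^ 2 := pow_le_pow_left₀ (by linarith) (by linarith) 2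
    have h8 := cos_part (y - x) (by linarith)
    rw [hx2, hy2]
    have h9 : 0 ≤ (64 / 100 - p ^ 2) * (64 / 100 - q ^ 2) := by
      apply mul_nonneg <;> nlinarith
    obtain ⟨t, ht⟩ : ∃ t, t = p * q := ⟨_, rfl⟩
    have e2 : p ^ 2 * q ^ 2 = t ^ 2 := by rw [ht]; ring
    have h10 : (p + q) ^ 2 = p ^ 2 + q ^ 2 + 2 * t := by rw [ht]; ring
    have h11 : (64 / 100 - p ^ 2) * (64 / 100 - q ^ 2) =
      (64 / 100) ^ 2 - 64 / 100 * (p ^ 2 + q ^ 2) + t ^ 2 := by rw [ht]; ring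
    rw [e2]
    obtain ⟨w, hw⟩ : ∃ w, w = p ^ 2 + q ^ 2 := ⟨_, rfl⟩
    rw [← hw] at h10 h11
    rw [← hw]
    rw [h11] at h9
    have h12 : w ≤ 64 / 100 + t ^ 2 / (64 / 100) := by
      have : 64 / 100 + t ^ 2 / (64 / 100) = ((64 / 100) ^ 2 + t ^ 2) / (64 / 100) := by
        field_simp
      rw [this, le_div_iff₀ (by norm_num)]
      linarith
    nlinarith [sq_nonneg (t - 1 / 7)]
  · have h1 := kk_bd x
    have h2 : p ^ 3 / 3 ≤ p ^ 2 := by nlinarith [sq_nonneg p, mul_nonneg (sq_nonneg p) hp0]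
    rw [hx2]
    exact h1.trans h2

end Pool.Agent.Q252.KU
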